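import Mathlib

/-!
PROJECT C2 (MP_2b0227_gt), kernel K_III: definitions for the natural windows and the
counting bounds for `f2`.
-/

namespace Pool.Agent.Helper67.C2K

open Finset

/-- `(t^3 - t)/6` for `t ≥ 1` -/
noncomputable def P3 (t : ℤ) : ℝ := if 1 ≤ t then ((t : ℝ) ^ 3 - t) / 6 else 0

/-- `t (t-1)/2` for `t ≥ 1` -/
noncomputable def P2 (t : ℤ) : ℝ := if 1 ≤ t then (t : ℝ) * (t - 1) / 2 else 0

/-- `(t-1)_+` -/
noncomputable def P1 (t : ℤ) : ℝ := ((max (t - 1) 0 : ℤ) : ℝ)

/-- `z_+ e^2` -/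
noncomputable def hp (z : ℤ) (e : ℝ) : ℝ := ((max z 0 : ℤ) : ℝ) * e ^ 2

/-- the form `H` in the variables `del_x, del_1, .., del_4` -/
noncomputable def H3 (x a b c d : ℤ) (e p q r s : ℝ) : ℝ :=
  hp x e - hp (x - a) (e - p) - hp (x - b) (e - q) - hp (x - c) (e - r) - hp (x - d) (e - s)
  + hp (x - a - b) (e - p - q) + hp (x - a - c) (e - p - r) + hp (x - a - d) (e - p - s)
  + hp (x - b - c) (e - q - r) + hp (x - b - d) (e - q - s) + hp (x - c - d) (e - r - s)
  - hp (x - a - b - c) (e - p - q - r) - hp (x - a - b - d) (e - p - q - s)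
  - hp (x - a - c - d) (e - p - r - s) - hp (x - b - c - d) (e - q - r - s)
  + hp (x - a - b - c - d) (e - p - q - r - s)

/-- the number of `(a_1, .., a_4)` with `0 ≤ a_k < c_k` and sum `x - 2` -/
noncomputable def f2 (x a b c d : ℤ) : ℝ :=
  P3 x - P3 (x - a) - P3 (x - b) - P3 (x - c) - P3 (x - d)
  + P3 (x - a - b) + P3 (x - a - c) + P3 (x - a - d)
  + P3 (x - b - c) + P3 (x - b - d) + P3 (x - c - d)
  - P3 (x - a - b - c) - P3 (x - a - b - d) - P3 (x - a - c - d) - P3 (x - b - c - d)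
  + P3 (x - a - b - c - d)

/-- the linear form `mu` -/
noncomputable def mu (x a b c d : ℤ) (e p q r s : ℝ) : ℝ :=
  e - (if a + b < x then e - p - q else 0) - (if c + d < x then e - r - s else 0)

/-- the number of `(a_1, a_2)` with `0 ≤ a_k < c_k` and sum `w - 2` -/
noncomputable def rho (c d w : ℤ) : ℝ := P1 w - P1 (w - c) - P1 (w - d) + P1 (w - c - d)

theorem P3_step (t : ℤ) : P3 t - P3 (t - 1) = P2 t := by
  unfold P3 P2
  by_cases h : 1 ≤ t
  · rw [if_pos h, if_pos h]
    by_cases h' : 1 ≤ t - 1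
    · rw [if_pos h']; push_cast; ring
    · obtain rfl : t = 1 := by omega
      norm_num
  · rw [if_neg h, if_neg h, if_neg (by omega)]; ring

theorem P2_step (t : ℤ) : P2 t - P2 (t - 1) = P1 t := by
  unfold P2 P1
  by_cases h : 1 ≤ t
  · rw [if_pos h, max_eq_left (by omega)]
    by_cases h' : 1 ≤ t - 1
    · rw [if_pos h']; push_cast; ring
    · obtain rfl : t = 1 := by omega
      norm_num
  · rw [if_neg h, if_neg (by omega), max_eq_right (by omega)]; simp

theorem sum_P2 (m : ℤ) (n : ℕ) : ∑ k ∈ range n, P2 (m - k) = P3 m - P3 (m - n) := by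
  induction n with
  | zero => simp
  | succ n ih =>
    rw [sum_range_succ, ih, ← P3_step]
    push_cast
    rw [show m - (n : ℤ) - 1 = m - (n + 1) by ring]
    ring

theorem sum_P1 (m : ℤ) (n : ℕ) : ∑ k ∈ range n, P1 (m - k) = P2 m - P2 (m - n) := by
  induction n with
  | zero => simp
  | succ n ih =>
    rw [sum_range_succ, ih, ← P2_step]
    push_cast
    rw [show m - (n : ℤ) - 1 = m - (n + 1) by ring]
    ring

theorem rho_nonneg {c d : ℤ} (hc : 0 ≤ c) (hd : 0 ≤ d) (w : ℤ) : 0 ≤ rho c d w := by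
  unfold rho P1
  have : 0 ≤ max (w - 1) 0 - max (w - c - 1) 0 - max (w - d - 1) 0 + max (w - c - d - 1) 0 := by
    omega
  exact_mod_cast this

theorem one_le_rho {c d w : ℤ} (hc : 1 ≤ c) (hd : 1 ≤ d) (h1 : 2 ≤ w) (h2 : w ≤ c + d) :
    1 ≤ rho c d w := by
  unfold rho P1
  have : 1 ≤ max (w - 1) 0 - max (w - c - 1) 0 - max (w - d - 1) 0 + max (w - c - d - 1) 0 := by
    omega
  exact_mod_cast this

theorem f2_eq (x c d : ℤ) (a b : ℕ) :
    f2 x a b c d = ∑ k ∈ range a, ∑ l ∈ range b, rho c d (x - k - l) := by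
  have h1 : ∀ m : ℤ, ∑ k ∈ range a, ∑ l ∈ range b, P1 (m - k - l) =
      P3 m - P3 (m - a) - P3 (m - b) + P3 (m - a - b) := by
    intro m
    have : ∀ k ∈ range a, ∑ l ∈ range b, P1 (m - k - l) = P2 (m - k) - P2 (m - b - k) := by
      intro k _
      rw [sum_P1]
      rw [show m - (k : ℤ) - b = m - b - k by ring]
    rw [sum_congr rfl this, sum_sub_distrib, sum_P2, sum_P2]
    rw [show m - (b : ℤ) - a = m - a - b by ring]
    ring
  have h2 : ∀ k l : ℕ, rho c d (x - k - l) =
      P1 (x - k - l) - P1 (x - c - k - l) - P1 (x - d - k - l) + P1 (x - c - d - k - l) := by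
    intro k l
    unfold rho
    rw [show x - (k : ℤ) - l - c = x - c - k - l by ring,
      show x - (k : ℤ) - l - d = x - d - k - l by ring,
      show x - c - (k : ℤ) - l - d = x - c - d - k - l by ring]
  simp_rw [h2, sum_add_distrib, sum_sub_distrib, h1]
  unfold f2
  rw [show x - c - (a : ℤ) = x - a - c by ring, show x - c - (b : ℤ) = x - b - c by ring,
    show x - a - c - (b : ℤ) = x - a - b - c by ring,
    show x - d - (a : ℤ) = x - a - d by ring, show x - d - (b : ℤ) = x - b - d by ring,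
    show x - a - d - (b : ℤ) = x - a - b - d by ring,
    show x - c - d - (a : ℤ) = x - a - c - d by ring,
    show x - c - d - (b : ℤ) = x - b - c - d by ring,
    show x - a - c - d - (b : ℤ) = x - a - b - c - d by ring]
  ring

end Pool.Agent.Helper67.C2K
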