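import Pool.Agent.Helper67.C2K.Def

/-!
PROJECT C2, kernel K_III: bounds and symmetries of `f2`, `H3`.
-/

namespace Pool.Agent.Helper67.C2K

open Finset

theorem f2_nonneg {x a b c d : ℤ} (ha : 0 ≤ a) (hb : 0 ≤ b) (hc : 0 ≤ c) (hd : 0 ≤ d) :
    0 ≤ f2 x a b c d := by
  obtain ⟨a, rfl⟩ := Int.eq_ofNat_of_zero_le ha
  obtain ⟨b, rfl⟩ := Int.eq_ofNat_of_zero_le hb
  rw [f2_eq]
  exact sum_nonneg fun k _ => sum_nonneg fun l _ => rho_nonneg hc hd _

/-- R1 -/
theorem f2_ge_mul {x a b c d : ℤ} (ha : 1 ≤ a) (hb : 1 ≤ b) (hc : 1 ≤ c) (hd : 1 ≤ d)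
    (h1 : a + b < x) (h2 : x ≤ c + d) : (a : ℝ) * b ≤ f2 x a b c d := by
  obtain ⟨a, rfl⟩ := Int.eq_ofNat_of_zero_le (by omega : 0 ≤ a)
  obtain ⟨b, rfl⟩ := Int.eq_ofNat_of_zero_le (by omega : 0 ≤ b)
  rw [f2_eq]
  have : ∀ k ∈ range a, (b : ℝ) ≤ ∑ l ∈ range b, rho c d (x - k - l) := by
    intro k hk
    have hk' := mem_range.1 hk
    have : ∀ l ∈ range b, (1 : ℝ) ≤ rho c d (x - k - l) := by
      intro l hl
      have hl' := mem_range.1 hl
      exact one_le_rho hc hd (by omega) (by omega)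
    calc (b : ℝ) = ∑ l ∈ range b, (1 : ℝ) := by simp
      _ ≤ _ := sum_le_sum this
  calc (((a : ℕ) : ℤ) : ℝ) * (((b : ℕ) : ℤ) : ℝ) = ∑ k ∈ range a, (b : ℝ) := by simp
    _ ≤ _ := sum_le_sum this

theorem le_rho {c d w : ℤ} (T : ℤ) (h1 : T ≤ w - 1) (h2 : T ≤ c) (h3 : T ≤ d)
    (h4 : T ≤ c + d - w + 1) (hc : 0 ≤ c) (hd : 0 ≤ d) (h0 : 0 ≤ T) : (T : ℝ) ≤ rho c d w := by
  unfold rho P1
  have : T ≤ max (w - 1) 0 - max (w - c - 1) 0 - max (w - d - 1) 0 + max (w - c - d - 1) 0 := by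
    omega
  exact_mod_cast this

/-- single term -/
theorem rho_le_f2 {x a b c d : ℤ} (ha : 1 ≤ a) (hb : 1 ≤ b) (hc : 0 ≤ c) (hd : 0 ≤ d) :
    rho c d x ≤ f2 x a b c d := by
  obtain ⟨a, rfl⟩ := Int.eq_ofNat_of_zero_le (by omega : 0 ≤ a)
  obtain ⟨b, rfl⟩ := Int.eq_ofNat_of_zero_le (by omega : 0 ≤ b)
  rw [f2_eq]
  calc rho c d x = rho c d (x - ((0 : ℕ) : ℤ) - ((0 : ℕ) : ℤ)) := by simp
    _ ≤ ∑ l ∈ range b, rho c d (x - ((0 : ℕ) : ℤ) - l) :=
        single_le_sum (f := fun l : ℕ => rho c d (x - ((0 : ℕ) : ℤ) - l))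
          (fun l _ => rho_nonneg hc hd _) (mem_range.2 (by omega))
    _ ≤ _ := single_le_sum (f := fun k : ℕ => ∑ l ∈ range b, rho c d (x - (k : ℤ) - l))
          (fun k _ => sum_nonneg fun l _ => rho_nonneg hc hd _) (mem_range.2 (by omega))

/-- R0.2: `f2 ≥ x - a` -/
theorem sub_le_f2 {x a b c d : ℤ} (ha : 1 ≤ a) (hb : 1 ≤ b) (hc : 1 ≤ c) (hd : 1 ≤ d)
    (h1 : x ≤ a + b) (h2 : x ≤ c + d) (h3 : a ≤ x) : (x : ℝ) - a ≤ f2 x a b c d := by
  obtain ⟨a, rfl⟩ := Int.eq_ofNat_of_zero_le (by omega : 0 ≤ a)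
  obtain ⟨b, rfl⟩ := Int.eq_ofNat_of_zero_le (by omega : 0 ≤ b)
  obtain ⟨n, hn⟩ := Int.eq_ofNat_of_zero_le (by omega : 0 ≤ x - a)
  rw [f2_eq]
  have e : (x : ℝ) - ((a : ℕ) : ℤ) = n := by
    have : ((x - (a : ℤ) : ℤ) : ℝ) = ((n : ℤ) : ℝ) := by rw [hn]
    push_cast at this ⊢
    exact this
  rw [e]
  have h : ∀ l ∈ range n, (1 : ℝ) ≤ rho c d (x - ((0 : ℕ) : ℤ) - l) := by
    intro l hl
    have hl' := mem_range.1 hl
    exact one_le_rho hc hd (by omega) (by omega)
  calc (n : ℝ) = ∑ l ∈ range n, (1 : ℝ) := by simp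
    _ ≤ ∑ l ∈ range n, rho c d (x - ((0 : ℕ) : ℤ) - l) := sum_le_sum h
    _ ≤ ∑ l ∈ range b, rho c d (x - ((0 : ℕ) : ℤ) - l) := by
        refine sum_le_sum_of_subset_of_nonneg ?_ fun l _ _ => rho_nonneg (by omega) (by omega) _
        intro l hl
        rw [mem_range] at hl ⊢
        omega
    _ ≤ _ := single_le_sum (f := fun k : ℕ => ∑ l ∈ range b, rho c d (x - (k : ℤ) - l))
          (fun k _ => sum_nonneg fun l _ => rho_nonneg (by omega) (by omega) _)
          (mem_range.2 (by omega))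

/-! ### symmetries -/

theorem f2_swap12 (x a b c d : ℤ) : f2 x b a c d = f2 x a b c d := by
  unfold f2; ring_nf

theorem f2_swap34 (x a b c d : ℤ) : f2 x a b d c = f2 x a b c d := by
  unfold f2; ring_nf

theorem f2_swap23 (x a b c d : ℤ) : f2 x a c b d = f2 x a b c d := by
  unfold f2; ring_nf

theorem f2_swapP (x a b c d : ℤ) : f2 x c d a b = f2 x a b c d := by
  unfold f2; ring_nf

theorem H3_swap12 (x a b c d : ℤ) (e p q r s : ℝ) : H3 x b a c d e q p r s = H3 x a b c d e p q r s := by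
  unfold H3; ring_nf

theorem H3_swap34 (x a b c d : ℤ) (e p q r s : ℝ) : H3 x a b d c e p q s r = H3 x a b c d e p q r s := by
  unfold H3; ring_nf

theorem H3_swapP (x a b c d : ℤ) (e p q r s : ℝ) : H3 x c d a b e r s p q = H3 x a b c d e p q r s := by
  unfold H3; ring_nf

theorem P3_neg (t : ℤ) : P3 (-t) = P3 t - ((t : ℝ) ^ 3 - t) / 6 := by
  unfold P3
  rcases lt_trichotomy t 0 with h | h | h
  · rw [if_pos (by omega), if_neg (by omega)]; push_cast; ring
  · subst h; norm_num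
  · rw [if_neg (by omega), if_pos (by omega)]; ring

theorem hp_neg (z : ℤ) (e : ℝ) : hp (-z) e = hp z e - z * e ^ 2 := by
  unfold hp
  rcases le_total z 0 with h | h
  · rw [max_eq_left (by omega), max_eq_right h]; push_cast; ring
  · rw [max_eq_right (by omega), max_eq_left h]; push_cast; ring

theorem f2_mirror (x a b c d : ℤ) : f2 (a + b + c + d - x) a b c d = f2 x a b c d := by
  unfold f2
  rw [show a + b + c + d - x = -(x - a - b - c - d) by ring,
    show -(x - a - b - c - d) - a = -(x - b - c - d) by ring,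
    show -(x - a - b - c - d) - b = -(x - a - c - d) by ring,
    show -(x - a - b - c - d) - c = -(x - a - b - d) by ring,
    show -(x - a - b - c - d) - d = -(x - a - b - c) by ring,
    show -(x - b - c - d) - b = -(x - c - d) by ring,
    show -(x - b - c - d) - c = -(x - b - d) by ring,
    show -(x - b - c - d) - d = -(x - b - c) by ring,
    show -(x - a - c - d) - c = -(x - a - d) by ring,
    show -(x - a - c - d) - d = -(x - a - c) by ring,
    show -(x - a - b - d) - d = -(x - a - b) by ring,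
    show -(x - c - d) - c = -(x - d) by ring,
    show -(x - c - d) - d = -(x - c) by ring,
    show -(x - b - d) - d = -(x - b) by ring,
    show -(x - a - d) - d = -(x - a) by ring,
    show -(x - d) - d = -x by ring]
  simp only [P3_neg]
  push_cast
  ring

theorem H3_mirror (x a b c d : ℤ) (e p q r s : ℝ) :
    H3 (a + b + c + d - x) a b c d (p + q + r + s - e) p q r s = H3 x a b c d e p q r s := by
  have hs : ∀ (z : ℤ) (u v : ℝ), u = -v → hp (-z) u = hp z v - z * v ^ 2 := by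
    intro z u v h
    rw [hp_neg]; unfold hp; rw [h]; ring
  unfold H3
  rw [show a + b + c + d - x = -(x - a - b - c - d) by ring,
    show -(x - a - b - c - d) - a = -(x - b - c - d) by ring,
    show -(x - a - b - c - d) - b = -(x - a - c - d) by ring,
    show -(x - a - b - c - d) - c = -(x - a - b - d) by ring,
    show -(x - a - b - c - d) - d = -(x - a - b - c) by ring,
    show -(x - b - c - d) - b = -(x - c - d) by ring,
    show -(x - b - c - d) - c = -(x - b - d) by ring,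
    show -(x - b - c - d) - d = -(x - b - c) by ring,
    show -(x - a - c - d) - c = -(x - a - d) by ring,
    show -(x - a - c - d) - d = -(x - a - c) by ring,
    show -(x - a - b - d) - d = -(x - a - b) by ring,
    show -(x - c - d) - c = -(x - d) by ring,
    show -(x - c - d) - d = -(x - c) by ring,
    show -(x - b - d) - d = -(x - b) by ring,
    show -(x - a - d) - d = -(x - a) by ring,
    show -(x - d) - d = -x by ring]
  rw [hs (x - a - b - c - d) _ (e - p - q - r - s) (by ring),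
    hs (x - b - c - d) _ (e - q - r - s) (by ring),
    hs (x - a - c - d) _ (e - p - r - s) (by ring),
    hs (x - a - b - d) _ (e - p - q - s) (by ring),
    hs (x - a - b - c) _ (e - p - q - r) (by ring),
    hs (x - c - d) _ (e - r - s) (by ring),
    hs (x - b - d) _ (e - q - s) (by ring),
    hs (x - b - c) _ (e - q - r) (by ring),
    hs (x - a - d) _ (e - p - s) (by ring),
    hs (x - a - c) _ (e - p - r) (by ring),
    hs (x - a - b) _ (e - p - q) (by ring),
    hs (x - d) _ (e - s) (by ring),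
    hs (x - c) _ (e - r) (by ring),
    hs (x - b) _ (e - q) (by ring),
    hs (x - a) _ (e - p) (by ring),
    hs x _ e (by ring)]
  push_cast
  ring

theorem hp_nonneg (z : ℤ) (e : ℝ) : 0 ≤ hp z e := by
  unfold hp
  have : (0 : ℝ) ≤ ((max z 0 : ℤ) : ℝ) := by exact_mod_cast le_max_right _ _
  positivity

theorem hp_zero {z : ℤ} (h : z ≤ 0) (e : ℝ) : hp z e = 0 := by
  unfold hp; rw [max_eq_right h]; simp

theorem hp_pos {z : ℤ} (h : 0 ≤ z) (e : ℝ) : hp z e = z * e ^ 2 := by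
  unfold hp; rw [max_eq_left h]

end Pool.Agent.Helper67.C2K
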