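import Pool.Agent.Helper67.C2K.F2

/-!
PROJECT C2, kernel K_III: the natural windows are nonpositive on a hyperplane.
-/

namespace Pool.Agent.Helper67.C2K

/-- upper bound for the natural window (two squares dropped) -/
noncomputable def Q3 (x a b c d : ℤ) (e p q r s t : ℝ) : ℝ :=
  H3 x a b c d e p q r s - f2 x a b c d / 2 * t ^ 2 + 2 * t * mu x a b c d e p q r s

/-- nonpositive on a hyperplane -/
def NP (x a b c d : ℤ) : Prop := ∃ l0 l1 l2 l3 l4 l5 : ℝ, ∀ e p q r s t : ℝ,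
  l0 * e + l1 * p + l2 * q + l3 * r + l4 * s + l5 * t = 0 → Q3 x a b c d e p q r s t ≤ 0

theorem NP.swap12 {x a b c d : ℤ} (h : NP x b a c d) : NP x a b c d := by
  obtain ⟨l0, l1, l2, l3, l4, l5, h⟩ := h
  refine ⟨l0, l2, l1, l3, l4, l5, fun e p q r s t hl => ?_⟩
  have := h e q p r s t (by linarith)
  unfold Q3 mu at this ⊢
  rw [H3_swap12, f2_swap12, add_comm b a, show e - q - p = e - p - q by ring] at this
  exact this

theorem NP.swap34 {x a b c d : ℤ} (h : NP x a b d c) : NP x a b c d := by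
  obtain ⟨l0, l1, l2, l3, l4, l5, h⟩ := h
  refine ⟨l0, l1, l2, l4, l3, l5, fun e p q r s t hl => ?_⟩
  have := h e p q s r t (by linarith)
  unfold Q3 mu at this ⊢
  rw [H3_swap34, f2_swap34, add_comm d c, show e - s - r = e - r - s by ring] at this
  exact this

theorem NP.swapP {x a b c d : ℤ} (h : NP x c d a b) : NP x a b c d := by
  obtain ⟨l0, l1, l2, l3, l4, l5, h⟩ := h
  refine ⟨l0, l3, l4, l1, l2, l5, fun e p q r s t hl => ?_⟩
  have := h e r s p q t (by linarith)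
  unfold Q3 mu at this ⊢
  rw [H3_swapP, f2_swapP] at this
  linarith

theorem NP.mirror {x a b c d : ℤ} (h1 : a + b < x) (h2 : c + d < x)
    (h : NP (a + b + c + d - x) a b c d) : NP x a b c d := by
  obtain ⟨l0, l1, l2, l3, l4, l5, h⟩ := h
  refine ⟨-l0, l1 + l0, l2 + l0, l3 + l0, l4 + l0, l5, fun e p q r s t hl => ?_⟩
  have := h (p + q + r + s - e) p q r s t (by linarith)
  unfold Q3 mu at this ⊢
  rw [H3_mirror, f2_mirror, if_neg (by omega), if_neg (by omega)] at this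
  rw [if_pos h1, if_pos h2]
  linarith

/-! ### R1 -/

/-- lower bound for the part of `H` over `{1,2}` -/
theorem E_lower {a b u : ℤ} (ha : 1 ≤ a) (hab : a ≤ b) (e σ : ℝ) :
    -((a : ℝ) * b * (((max (u - a) 0 : ℤ) : ℝ) + ((max (u - b) 0 : ℤ) : ℝ)) * σ ^ 2) ≤
      hp u e - hp (u - a) (e - a * σ) - hp (u - b) (e + b * σ)
        + hp (u - a - b) (e - a * σ + b * σ) := by
  have ha' : (1 : ℝ) ≤ a := by exact_mod_cast ha
  have hab' : (a : ℝ) ≤ b := by exact_mod_cast hab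
  rcases le_total u a with h1 | h1
  · rw [hp_zero (by omega : u - a ≤ 0), hp_zero (by omega : u - b ≤ 0),
      hp_zero (by omega : u - a - b ≤ 0), max_eq_right (by omega : u - a ≤ 0),
      max_eq_right (by omega : u - b ≤ 0)]
    have := hp_nonneg u e
    push_cast
    nlinarith
  have h1' : (a : ℝ) ≤ u := by exact_mod_cast h1
  rcases le_total u b with h2 | h2
  · have h2' : (u : ℝ) ≤ b := by exact_mod_cast h2
    rw [hp_pos (by omega : 0 ≤ u), hp_pos (by omega : 0 ≤ u - a), hp_zero (by omega : u - b ≤ 0),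
      hp_zero (by omega : u - a - b ≤ 0), max_eq_left (by omega : 0 ≤ u - a),
      max_eq_right (by omega : u - b ≤ 0)]
    push_cast
    have key : (u : ℝ) * e ^ 2 - (u - a) * (e - a * σ) ^ 2 + a * b * (u - a) * σ ^ 2 =
        a * (e + (u - a) * σ) ^ 2 + a * (u - a) * (b - u) * σ ^ 2 := by ring
    have k1 : 0 ≤ (a : ℝ) * (e + (u - a) * σ) ^ 2 := by positivity
    have k2 : 0 ≤ (a : ℝ) * (u - a) * (b - u) * σ ^ 2 :=
      mul_nonneg (mul_nonneg (mul_nonneg (by linarith) (by linarith)) (by linarith)) (sq_nonneg _)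
    linarith
  have h2' : (b : ℝ) ≤ u := by exact_mod_cast h2
  rw [hp_pos (by omega : 0 ≤ u), hp_pos (by omega : 0 ≤ u - a), hp_pos (by omega : 0 ≤ u - b),
    max_eq_left (by omega : 0 ≤ u - a), max_eq_left (by omega : 0 ≤ u - b)]
  rcases le_total u (a + b) with h3 | h3
  · have h3' : (u : ℝ) ≤ a + b := by exact_mod_cast h3
    rw [hp_zero (by omega : u - a - b ≤ 0)]
    push_cast
    have key : (u : ℝ) * e ^ 2 - (u - a) * (e - a * σ) ^ 2 - (u - b) * (e + b * σ) ^ 2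
        + a * b * (u - a + (u - b)) * σ ^ 2 = (a + b - u) * (e + (b - a) * σ) ^ 2 := by ring
    have k1 : 0 ≤ ((a : ℝ) + b - u) * (e + (b - a) * σ) ^ 2 :=
      mul_nonneg (by linarith) (sq_nonneg _)
    linarith
  · rw [hp_pos (by omega : 0 ≤ u - a - b)]
    push_cast
    have key : (u : ℝ) * e ^ 2 - (u - a) * (e - a * σ) ^ 2 - (u - b) * (e + b * σ) ^ 2
        + (u - a - b) * (e - a * σ + b * σ) ^ 2 + a * b * (u - a + (u - b)) * σ ^ 2 = 0 := by ring
    linarith

/-- the part of `H` over `{1,2}` for `u ≥ a + b` -/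
theorem E_top {a b u : ℤ} (ha : 1 ≤ a) (hb : 1 ≤ b) (h : a + b ≤ u) (e σ : ℝ) :
    hp u e - hp (u - a) (e - a * σ) - hp (u - b) (e + b * σ)
        + hp (u - a - b) (e - a * σ + b * σ) =
      -((a : ℝ) * b * (2 * u - a - b) * σ ^ 2) := by
  rw [hp_pos (by omega : 0 ≤ u), hp_pos (by omega : 0 ≤ u - a), hp_pos (by omega : 0 ≤ u - b),
    hp_pos (by omega : 0 ≤ u - a - b)]
  push_cast
  ring

theorem nat_R1 {x a b c d : ℤ} (ha : 1 ≤ a) (hc : 1 ≤ c) (hd : 1 ≤ d) (hab : a ≤ b)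
    (h1 : a + b < x) (h2 : x ≤ c + d) : NP x a b c d := by
  refine ⟨0, b, a, 0, 0, 0, fun e p q r s t hl => ?_⟩
  have ha' : (1 : ℝ) ≤ a := by exact_mod_cast ha
  have hab' : (a : ℝ) ≤ b := by exact_mod_cast hab
  have hb' : (1 : ℝ) ≤ b := by linarith
  have hf := f2_ge_mul ha (by omega : 1 ≤ b) hc hd h1 h2
  obtain ⟨σ, hp'⟩ : ∃ σ : ℝ, p = a * σ := ⟨p / a, by field_simp⟩
  have hq : q = -(b * σ) := by
    have : (a : ℝ) * (q + b * σ) = 0 := by rw [hp'] at hl; linarith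
    rcases mul_eq_zero.1 this with h | h
    · linarith
    · linarith
  subst hp' hq
  have e0 := E_top ha (by omega : 1 ≤ b) (by omega : a + b ≤ x) e σ
  have e1 := E_lower ha hab (u := x - c) (e - r) σ
  have e2 := E_lower ha hab (u := x - d) (e - s) σ
  have hH : H3 x a b c d e (a * σ) (-(b * σ)) r s =
      (hp x e - hp (x - a) (e - a * σ) - hp (x - b) (e + b * σ)
        + hp (x - a - b) (e - a * σ + b * σ))
      - (hp (x - c) (e - r) - hp (x - c - a) (e - r - a * σ) - hp (x - c - b) (e - r + b * σ)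
        + hp (x - c - a - b) (e - r - a * σ + b * σ))
      - (hp (x - d) (e - s) - hp (x - d - a) (e - s - a * σ) - hp (x - d - b) (e - s + b * σ)
        + hp (x - d - a - b) (e - s - a * σ + b * σ)) := by
    unfold H3
    rw [hp_zero (by omega : x - c - d ≤ 0), hp_zero (by omega : x - a - c - d ≤ 0),
      hp_zero (by omega : x - b - c - d ≤ 0), hp_zero (by omega : x - a - b - c - d ≤ 0)]
    ring_nf
  have hD : (2 : ℝ) ≤ (2 * x - a - b)
      - (((max (x - c - a) 0 : ℤ) : ℝ) + ((max (x - c - b) 0 : ℤ) : ℝ))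
      - (((max (x - d - a) 0 : ℤ) : ℝ) + ((max (x - d - b) 0 : ℤ) : ℝ)) := by
    have : 2 ≤ (2 * x - a - b) - (max (x - c - a) 0 + max (x - c - b) 0)
      - (max (x - d - a) 0 + max (x - d - b) 0) := by omega
    exact_mod_cast this
  have hmu : mu x a b c d e (a * σ) (-(b * σ)) r s = (a - b) * σ := by
    unfold mu
    rw [if_pos h1, if_neg (by omega)]
    ring
  unfold Q3
  rw [hmu, hH, e0]
  set A := ((max (x - c - a) 0 : ℤ) : ℝ) + ((max (x - c - b) 0 : ℤ) : ℝ) with hA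
  set B := ((max (x - d - a) 0 : ℤ) : ℝ) + ((max (x - d - b) 0 : ℤ) : ℝ) with hB
  have hab1 : (1 : ℝ) ≤ a * b := by nlinarith
  have hst : (a : ℝ) * b * σ ^ 2 * 2 ≤ a * b * σ ^ 2 * ((2 * x - a - b) - A - B) :=
    mul_le_mul_of_nonneg_left hD (by positivity)
  have hft : (a : ℝ) * b * t ^ 2 ≤ f2 x a b c d * t ^ 2 :=
    mul_le_mul_of_nonneg_right hf (sq_nonneg t)
  have hsq : ((b : ℝ) - a) ^ 2 ≤ (a * b) ^ 2 := by
    apply pow_le_pow_left₀ (by linarith)
    nlinarith
  -- 2ab σ² - 2 (a-b) σ t + (ab/2) t² ≥ 0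
  have hfin : 0 ≤ 2 * ((a : ℝ) * b) * σ ^ 2 - 2 * (a - b) * σ * t + (a * b) / 2 * t ^ 2 := by
    have : 0 ≤ 2 * ((a : ℝ) * b) *
        (2 * ((a : ℝ) * b) * σ ^ 2 - 2 * (a - b) * σ * t + (a * b) / 2 * t ^ 2) := by
      have e : 2 * ((a : ℝ) * b) *
        (2 * ((a : ℝ) * b) * σ ^ 2 - 2 * (a - b) * σ * t + (a * b) / 2 * t ^ 2) =
        (2 * (a * b) * σ - (a - b) * t) ^ 2 + ((a * b) ^ 2 - (b - a) ^ 2) * t ^ 2 := by ring
      rw [e]
      have : 0 ≤ ((a * b : ℝ) ^ 2 - (b - a) ^ 2) * t ^ 2 :=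
        mul_nonneg (by linarith) (sq_nonneg _)
      positivity
    exact nonneg_of_mul_nonneg_right this (by positivity)
  linarith

/-! ### R0 -/

theorem nat_R00 {x a b c d : ℤ} (ha : 0 ≤ a) (hb : 0 ≤ b) (hc : 0 ≤ c) (hd : 0 ≤ d)
    (h1 : x ≤ a + b) (h2 : x ≤ c + d) (hac : x ≤ a + c) (had : x ≤ a + d) (hbc : x ≤ b + c)
    (hbd : x ≤ b + d) : NP x a b c d := by
  refine ⟨1, 0, 0, 0, 0, 0, fun e p q r s t hl => ?_⟩
  have he : e = 0 := by linarith
  subst he
  have hf := f2_nonneg (x := x) ha hb hc hd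
  unfold Q3 H3 mu
  rw [if_neg (by omega), if_neg (by omega), hp_zero (by omega : x - a - b ≤ 0),
    hp_zero (by omega : x - a - c ≤ 0), hp_zero (by omega : x - a - d ≤ 0),
    hp_zero (by omega : x - b - c ≤ 0), hp_zero (by omega : x - b - d ≤ 0),
    hp_zero (by omega : x - c - d ≤ 0), hp_zero (by omega : x - a - b - c ≤ 0),
    hp_zero (by omega : x - a - b - d ≤ 0), hp_zero (by omega : x - a - c - d ≤ 0),
    hp_zero (by omega : x - b - c - d ≤ 0), hp_zero (by omega : x - a - b - c - d ≤ 0)]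
  have h0 : hp x 0 = 0 := by unfold hp; ring
  have := hp_nonneg (x - a) (0 - p)
  have := hp_nonneg (x - b) (0 - q)
  have := hp_nonneg (x - c) (0 - r)
  have := hp_nonneg (x - d) (0 - s)
  have : 0 ≤ f2 x a b c d / 2 * t ^ 2 := by positivity
  rw [h0]
  linarith

theorem nat_R01 {x a b c d : ℤ} (ha : 1 ≤ a) (hb : 1 ≤ b) (hc : 1 ≤ c) (hd : 1 ≤ d)
    (h1 : x ≤ a + b) (h2 : x ≤ c + d) (hac : a + c < x) (had : x ≤ a + d) (hbc : x ≤ b + c) :
    NP x a b c d := by
  refine ⟨0, c, 0, a, 0, 1, fun e p q r s t hl => ?_⟩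
  have ha' : (1 : ℝ) ≤ a := by exact_mod_cast ha
  have hc' : (1 : ℝ) ≤ c := by exact_mod_cast hc
  have ht : t = -(c * p + a * r) := by linarith
  have hf : ((x - a - c : ℤ) : ℝ) ≤ f2 x a b c d := by
    have h3 := rho_le_f2 (x := x) ha hc (by omega : 0 ≤ b) (by omega : 0 ≤ d)
    rw [f2_swap23] at h3
    refine le_trans (le_rho (x - a - c) ?_ ?_ ?_ ?_ ?_ ?_ ?_) h3 <;> omega
  have hT : (0 : ℝ) < ((x - a - c : ℤ) : ℝ) := by exact_mod_cast (by omega : 0 < x - a - c)
  unfold Q3 H3 mu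
  rw [if_neg (by omega), if_neg (by omega), hp_zero (by omega : x - a - b ≤ 0),
    hp_zero (by omega : x - a - d ≤ 0),
    hp_zero (by omega : x - b - c ≤ 0), hp_zero (by omega : x - b - d ≤ 0),
    hp_zero (by omega : x - c - d ≤ 0), hp_zero (by omega : x - a - b - c ≤ 0),
    hp_zero (by omega : x - a - b - d ≤ 0), hp_zero (by omega : x - a - c - d ≤ 0),
    hp_zero (by omega : x - b - c - d ≤ 0), hp_zero (by omega : x - a - b - c - d ≤ 0),
    hp_pos (by omega : 0 ≤ x), hp_pos (by omega : 0 ≤ x - a), hp_pos (by omega : 0 ≤ x - c),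
    hp_pos (by omega : 0 ≤ x - a - c)]
  have k1 := hp_nonneg (x - b) (e - q)
  have k2 := hp_nonneg (x - d) (e - s)
  have k3 : (((x - a - c : ℤ) : ℝ)) * t ^ 2 ≤ f2 x a b c d * t ^ 2 :=
    mul_le_mul_of_nonneg_right hf (sq_nonneg t)
  set T : ℝ := ((x - a - c : ℤ) : ℝ) with hTd
  have hx : (x : ℝ) = T + a + c := by rw [hTd]; push_cast; ring
  have hxa : ((x - a : ℤ) : ℝ) = T + c := by rw [hTd]; push_cast; ring
  have hxc : ((x - c : ℤ) : ℝ) = T + a := by rw [hTd]; push_cast; ring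
  rw [hx, hxa, hxc]
  -- main inequality
  have k4 : 2 * T * (p * r) ≤ T / 2 * t ^ 2 := by
    rw [ht]
    rcases le_total (p * r) 0 with h | h
    · have : 2 * T * (p * r) ≤ 0 := by nlinarith
      have : 0 ≤ T / 2 * (-(c * p + a * r)) ^ 2 := by positivity
      linarith
    · have e : (-(c * p + a * r)) ^ 2 = (c * p - a * r) ^ 2 + 4 * (a * c) * (p * r) := by ring
      have hac1 : (1 : ℝ) ≤ a * c := by nlinarith
      have h5 : 4 * (p * r) ≤ 4 * (a * c) * (p * r) := by nlinarith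
      have h6 : 4 * (p * r) ≤ (-(c * p + a * r)) ^ 2 := by
        rw [e]; nlinarith [sq_nonneg (c * p - a * r)]
      nlinarith
  have k5 : (T + a + c) * e ^ 2 - (T + c) * (e - p) ^ 2 - (T + a) * (e - r) ^ 2
      + T * (e - p - r) ^ 2 + 2 * t * e = -(c * p ^ 2) - a * r ^ 2 + 2 * T * (p * r) := by
    rw [ht]; ring
  have k6 : 0 ≤ (c : ℝ) * p ^ 2 := by positivity
  have k7 : 0 ≤ (a : ℝ) * r ^ 2 := by positivity
  nlinarith

/-- the real inequality of R0.2 -/
theorem R02_real {a c d D F e p r s t : ℝ} (ha : 1 ≤ a) (hD1 : a ≤ D) (hcD : D + 1 ≤ c)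
    (hdD : D + 1 ≤ d) (hfZ : c + d - D ≤ F) (ht : t = -(d * p + a * s)) :
    (a + c + d - D) * e ^ 2 - (a + c + d - D - a) * (e - p) ^ 2
      - (a + c + d - D - c) * (e - r) ^ 2 - (a + c + d - D - d) * (e - s) ^ 2
      + (a + c + d - D - a - c) * (e - p - r) ^ 2 + (a + c + d - D - a - d) * (e - p - s) ^ 2
      - F / 2 * t ^ 2 + 2 * t * e ≤ 0 := by
  set Z : ℝ := c + d - D with hZ
  have hZ0 : 0 ≤ Z := by rw [hZ]; linarith
  have haF : F ≤ a * F := by nlinarith
  have hF1 : Z ≤ 2 + a * F := by linarith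
  have hP : 2 * Z ≤ 2 * c * d + a * D - D ^ 2 := by
    have h3 : D * D ≤ (c - 1) * (d - 1) :=
      mul_le_mul (by linarith) (by linarith) (by linarith) (by linarith)
    have h4 : D ≤ a * D := by nlinarith
    have h5 : 1 ≤ D := by linarith
    rw [hZ]
    nlinarith
  have key : a * ((a + c + d - D) * e ^ 2 - (a + c + d - D - a) * (e - p) ^ 2
      - (a + c + d - D - c) * (e - r) ^ 2 - (a + c + d - D - d) * (e - s) ^ 2
      + (a + c + d - D - a - c) * (e - p - r) ^ 2 + (a + c + d - D - a - d) * (e - p - s) ^ 2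
      - F / 2 * t ^ 2 + 2 * t * e) =
      -(a * (e - r) + (d - D) * p) ^ 2
      - ((2 * c * d + a * D - D ^ 2) * p ^ 2 + 2 * Z * p * t + (1 + a * F / 2) * t ^ 2) := by
    rw [ht, hZ]; ring
  have h6 : 2 * Z * p ^ 2 ≤ (2 * c * d + a * D - D ^ 2) * p ^ 2 :=
    mul_le_mul_of_nonneg_right hP (sq_nonneg p)
  have h7 : Z * t ^ 2 ≤ (2 + a * F) * t ^ 2 := mul_le_mul_of_nonneg_right hF1 (sq_nonneg t)
  have h8 : 0 ≤ Z / 2 * (2 * p + t) ^ 2 := by positivity
  have h8' : Z / 2 * (2 * p + t) ^ 2 = 2 * Z * p ^ 2 + 2 * Z * p * t + Z * t ^ 2 / 2 := by ring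
  have hlast : 0 ≤ (2 * c * d + a * D - D ^ 2) * p ^ 2 + 2 * Z * p * t
      + (1 + a * F / 2) * t ^ 2 := by
    have h9 : (1 + a * F / 2) * t ^ 2 = (2 + a * F) * t ^ 2 / 2 := by ring
    rw [h9]
    linarith
  have h10 := sq_nonneg (a * (e - r) + (d - D) * p)
  by_contra h
  push Not at h
  have h11 := mul_pos (lt_of_lt_of_le one_pos ha) h
  rw [key] at h11
  linarith

theorem nat_R02 {x a b c d : ℤ} (ha : 1 ≤ a) (hb : 1 ≤ b) (hc : 1 ≤ c) (hd : 1 ≤ d)
    (h1 : x ≤ a + b) (h2 : x ≤ c + d) (hac : a + c < x) (had : a + d < x) :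
    NP x a b c d := by
  refine ⟨0, d, 0, 0, a, 1, fun e p q r s t hl => ?_⟩
  have ha' : (1 : ℝ) ≤ a := by exact_mod_cast ha
  have ht : t = -(d * p + a * s) := by linarith
  have hf := sub_le_f2 ha hb hc hd h1 h2 (by omega)
  have hD1 : (a : ℝ) ≤ a + c + d - x := by
    have : (x : ℝ) ≤ c + d := by exact_mod_cast h2
    linarith
  have hp1 : (a : ℝ) + c + 1 ≤ x := by exact_mod_cast hac
  have hq1 : (a : ℝ) + d + 1 ≤ x := by exact_mod_cast had
  have hm := R02_real (e := e) (p := p) (r := r) (s := s) (c := c) (d := d) ha' hD1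
    (by linarith) (by linarith)
    (F := f2 x a b c d) (by linarith) ht
  unfold Q3 H3 mu
  rw [if_neg (by omega), if_neg (by omega), hp_zero (by omega : x - a - b ≤ 0),
    hp_zero (by omega : x - b - c ≤ 0), hp_zero (by omega : x - b - d ≤ 0),
    hp_zero (by omega : x - c - d ≤ 0), hp_zero (by omega : x - a - b - c ≤ 0),
    hp_zero (by omega : x - a - b - d ≤ 0), hp_zero (by omega : x - a - c - d ≤ 0),
    hp_zero (by omega : x - b - c - d ≤ 0), hp_zero (by omega : x - a - b - c - d ≤ 0),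
    hp_pos (by omega : 0 ≤ x), hp_pos (by omega : 0 ≤ x - a), hp_pos (by omega : 0 ≤ x - c),
    hp_pos (by omega : 0 ≤ x - d), hp_pos (by omega : 0 ≤ x - a - c),
    hp_pos (by omega : 0 ≤ x - a - d)]
  have k1 := hp_nonneg (x - b) (e - q)
  have e1 : (a : ℝ) + c + d - (a + c + d - x) = x := by ring
  rw [e1] at hm
  push_cast
  linarith

/-- R0 -/
theorem nat_R0 {x a b c d : ℤ} (ha : 1 ≤ a) (hb : 1 ≤ b) (hc : 1 ≤ c) (hd : 1 ≤ d)
    (h1 : x ≤ a + b) (h2 : x ≤ c + d) : NP x a b c d := by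
  by_cases hac : a + c < x
  · by_cases had : a + d < x
    · exact nat_R02 ha hb hc hd h1 h2 hac had
    · by_cases hbc : b + c < x
      · -- {1,3}, {2,3}: common index 3
        exact (nat_R02 hc hd ha hb h2 h1 (by omega) (by omega)).swapP
      · exact nat_R01 ha hb hc hd h1 h2 hac (by omega) (by omega)
  · by_cases had : a + d < x
    · by_cases hbd : b + d < x
      · -- {1,4}, {2,4}
        exact ((nat_R02 hd hc ha hb (by omega) h1 (by omega) (by omega)).swapP).swap34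
      · exact (nat_R01 ha hb hd hc h1 (by omega) had (by omega) (by omega)).swap34
    · by_cases hbc : b + c < x
      · by_cases hbd : b + d < x
        · -- {2,3}, {2,4}
          exact (nat_R02 hb ha hc hd (by omega) h2 hbc hbd).swap12
        · exact (nat_R01 hb ha hc hd (by omega) h2 hbc (by omega) (by omega)).swap12
      · by_cases hbd : b + d < x
        · exact ((nat_R01 hb ha hd hc (by omega) (by omega) hbd (by omega) (by omega)).swap12).swap34
        · exact nat_R00 (by omega) (by omega) (by omega) (by omega) h1 h2 (by omega) (by omega)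
            (by omega) (by omega)

/-- The natural windows of K_III. -/
theorem nat3 {x a b c d : ℤ} (ha : 1 ≤ a) (hb : 1 ≤ b) (hc : 1 ≤ c) (hd : 1 ≤ d) :
    NP x a b c d := by
  by_cases h1 : x ≤ a + b
  · by_cases h2 : x ≤ c + d
    · exact nat_R0 ha hb hc hd h1 h2
    · -- c + d < x ≤ a + b
      rcases le_total c d with h | h
      · exact (nat_R1 hc ha hb h (by omega) h1).swapP
      · exact ((nat_R1 hd ha hb h (by omega) h1).swapP).swap34
  · by_cases h2 : x ≤ c + d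
    · rcases le_total a b with h | h
      · exact nat_R1 ha hc hd h (by omega) h2
      · exact (nat_R1 hb hc hd h (by omega) h2).swap12
    · exact NP.mirror (by omega) (by omega) (nat_R0 ha hb hc hd (by omega) (by omega))

end Pool.Agent.Helper67.C2K
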