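import Pool.Agent.Helper67.C2K.Nat
import Pool.Agent.Helper98.C2K3.Form

/-!
PROJECT C2, kernel K_III: the natural theorem in the notation of `Helper98/C2K3`.
-/

namespace Pool.Agent.Helper67.C2K

open Pool.Agent.Helper98.C2K3

theorem hp_eq (t : ℤ) (e : ℝ) : hp t e = pp t * e ^ 2 := by
  unfold hp pp
  split_ifs with h
  · rw [max_eq_left h]
  · rw [max_eq_right (by omega)]; simp

theorem P3_eq (t : ℤ) : P3 t = p3 t := by
  unfold P3 p3
  by_cases h : 1 ≤ t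
  · rw [if_pos h, if_pos (by omega)]
  · rw [if_neg h]
    split_ifs with h'
    · obtain rfl : t = 0 := by omega
      norm_num
    · rfl

theorem H3_eq_HF (a b c d x : ℤ) (e u1 u2 u3 u4 : ℝ) :
    H3 x a b c d e u1 u2 u3 u4 = HF a b c d x e u1 u2 u3 u4 := by
  unfold H3 HF
  simp only [hp_eq]

theorem f2_eq_g4 (a b c d x : ℤ) : f2 x a b c d = g4 a b c d (x - 1) := by
  unfold f2 g4
  simp only [P3_eq, sub_add_cancel]

/-- The natural theorem. -/
theorem nat3_98 (a b c d x : ℤ) (ha : 1 ≤ a) (hb : 1 ≤ b) (hc : 1 ≤ c) (hd : 1 ≤ d) :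
    ∃ l0 l1 l2 l3 l4 l5 : ℝ, ∀ e u1 u2 u3 u4 w : ℝ,
      l0 * e + l1 * u1 + l2 * u2 + l3 * u3 + l4 * u4 + l5 * w = 0 →
      HF a b c d x e u1 u2 u3 u4 - g4 a b c d (x - 1) / 2 * w ^ 2
        + 2 * w * (e - (if a + b < x then e - u1 - u2 else 0)
          - (if c + d < x then e - u3 - u4 else 0)) ≤ 0 := by
  obtain ⟨l0, l1, l2, l3, l4, l5, h⟩ := nat3 (x := x) ha hb hc hd
  refine ⟨l0, l1, l2, l3, l4, l5, fun e u1 u2 u3 u4 w hl => ?_⟩
  have := h e u1 u2 u3 u4 w hl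
  unfold Q3 mu at this
  rw [H3_eq_HF, f2_eq_g4] at this
  exact this

end Pool.Agent.Helper67.C2K
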